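import Pool.Agent.H75.GG.Targets2

/-!
# gsg_modules, row FMA: the universal machine is given by formulas
-/

set_option autoImplicit false

namespace Pool.Agent.H61.GG

open Finset Filter Pool.Agent.H6.NB Pool.Agent.H70.OQ Pool.Agent.H75.GS Pool.Agent.H75.GG

theorem fm_succ {V : Type} {S t d : ℕ} (hS : 1 ≤ S) {f : (V → Bool) → Bool} (h : Fm S t d f) :
    Fm S t (d + 1) f := by
  refine ⟨1, fun _ => f, fun _ => true, hS, fun _ => h, fun y => ?_⟩
  constructor
  · intro hy
    exact ⟨0, hy⟩
  · rintro ⟨_, hy⟩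
    exact hy

theorem fm_le {V : Type} {S t d d' : ℕ} (hS : 1 ≤ S) (hd : d ≤ d') {f : (V → Bool) → Bool}
    (h : Fm S t d f) : Fm S t d' f := by
  induction d', hd using Nat.le_induction with
  | base => exact h
  | succ n _ ih => exact fm_succ hS ih

theorem pf_FMA (hFMX : T_FMX) (hLAK : T_LAK) : T_FMA := by
  intro K prog e hsm
  refine ⟨?_, ?_⟩
  · intro s O O' h
    exact hLAK (K (e s.length)) (prog (e s.length)) (hsm _) s O O' h
  · intro n a t Km hn hnt hK o
    have h1 := fun r : ℕ => hFMX 1 (K r) (prog r) n a t o (hsm r) hn hnt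
    choose D hD hD' using h1
    refine ⟨fun s => D (e s.1.length) s, ⟨?_, ?_, ?_⟩, ?_⟩
    · intro s
      exact fm_le Nat.one_le_two_pow (hK s.1.length s.2.2) ((hD (e s.1.length)).fm s)
    · intro s y y' hy
      exact (hD (e s.1.length)).low s y y' hy
    · intro s
      exact (hD (e s.1.length)).lt s
    · intro s T ev P
      exact hD' (e s.1.length) s T ev P

end Pool.Agent.H61.GG
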